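import Mathlib

/-!
# Random unit arrows: the model never homogenizes
-/

set_option autoImplicit false

open MeasureTheory ProbabilityTheory Filter Finset
open scoped ENNReal NNReal Topology

namespace Pool.Agent.Results.MP_31ab2b_pr.NoHomogenization

/-- the cubic lattice -/
abbrev Lat (d : ℕ) : Type := Fin d → ℤ

/-- a unit arrow: a coordinate and a sign -/
abbrev Arrow (d : ℕ) : Type := Fin d × Bool

/-- the unit vector of an arrow -/
def vec {d : ℕ} (a : Arrow d) : Lat d := Pi.single a.1 (if a.2 then 1 else -1)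

/-- an environment is a field of arrows -/
abbrev Env (d : ℕ) : Type := Lat d → Arrow d

/-- the law of the environment: independent arrows, each uniform on the `2d` arrows -/
noncomputable def envLaw (d : ℕ) [NeZero d] : Measure (Env d) :=
  Measure.infinitePi fun _ : Lat d => (PMF.uniformOfFintype (Arrow d)).toMeasure

/-- transition probability from `x` to `z` -/
noncomputable def step {d : ℕ} (ε : ℝ) (ω : Env d) (x z : Lat d) : ℝ :=
  open Classical in
  if x - z = vec (ω x) then 1 - (2 * d - 1) * ε else if ∃ a : Arrow d, x - z = vec a then ε else 0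

/-- the quenched kernel: the probability that the chain started at `0` is at `x` at time `n`; the
neighbours of `x` are the sites `x + vec a` -/
noncomputable def kern {d : ℕ} (ε : ℝ) (ω : Env d) : ℕ → Lat d → ℝ
  | 0, x => if x = 0 then 1 else 0
  | n + 1, x => ∑ a : Arrow d, kern ε ω n (x + vec a) * step ε ω (x + vec a) x

/-- the averaged kernel -/
noncomputable def avgKern (d : ℕ) [NeZero d] (ε : ℝ) (n : ℕ) (x : Lat d) : ℝ :=
  ∫ ω, kern ε ω n x ∂(envLaw d)

/-- part (i): central limit theorem under the averaged law -/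
def AveragedCLT (d : ℕ) [NeZero d] (ε : ℝ) : Prop :=
  ∃ v : ℝ≥0, 0 < v ∧ ∀ f : BoundedContinuousFunction (Fin d → ℝ) ℝ,
    Tendsto (fun n : ℕ => ∑' x : Lat d, avgKern d ε n x * f (fun i => (x i : ℝ) / Real.sqrt n)) atTop
      (𝓝 (∫ y, f y ∂(Measure.pi fun _ : Fin d => gaussianReal 0 v)))

/-- part (ii): the ratio of the quenched and the averaged kernel tends to one in probability,
uniformly over the reachable sites at distance at most `C √n` -/
def KernelRatio (d : ℕ) [NeZero d] (ε : ℝ) : Prop :=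
  ∀ C : ℝ, 0 < C → ∀ δ : ℝ, 0 < δ →
    Tendsto (fun n : ℕ => ⨆ (x : Lat d) (_ : Real.sqrt (∑ i, (x i : ℝ) ^ 2) ≤ C * Real.sqrt n ∧
      0 < avgKern d ε n x), envLaw d {ω | δ < |kern ε ω n x / avgKern d ε n x - 1|}) atTop (𝓝 0)

/-- the model homogenizes -/
def Homogenizes (d : ℕ) [NeZero d] (ε : ℝ) : Prop := AveragedCLT d ε ∧ KernelRatio d ε

variable {d : ℕ}

lemma vec_injective : Function.Injective (vec (d := d)) := by
  rintro ⟨i, s⟩ ⟨j, t⟩ h
  have h1 : vec (i, s) i = vec (j, t) i := by rw [h]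
  unfold vec at h1
  rw [Pi.single_eq_same] at h1
  by_cases hij : i = j
  · subst hij
    rw [Pi.single_eq_same] at h1
    cases s <;> cases t <;> simp_all
  · rw [Pi.single_eq_of_ne hij] at h1
    cases s <;> simp at h1

/-- the reversed arrow -/
def flip (a : Arrow d) : Arrow d := (a.1, !a.2)

lemma flip_ne (a : Arrow d) : flip a ≠ a := by
  intro h
  have := congrArg Prod.snd h
  unfold flip at this
  cases h2 : a.2 <;> simp_all

lemma vec_flip (a : Arrow d) : vec (flip a) = - vec a := by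
  unfold vec flip
  rw [← Pi.single_neg]
  cases a.2 <;> simp

lemma sqrt_vec (a : Arrow d) : Real.sqrt (∑ i, ((vec a i : ℤ) : ℝ) ^ 2) = 1 := by
  have h : ∑ i, ((vec a i : ℤ) : ℝ) ^ 2 = 1 := by
    rw [Finset.sum_eq_single a.1]
    · unfold vec
      rw [Pi.single_eq_same]
      cases a.2 <;> simp
    · intro i _ hi
      unfold vec
      rw [Pi.single_eq_of_ne hi]
      simp
    · intro h; exact absurd (Finset.mem_univ _) h
  rw [h, Real.sqrt_one]

section ker
variable {ε : ℝ}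

lemma kappa_gt (hε : 0 < ε) (hε2 : ε < 1 / (2 * d)) : ε < 1 - (2 * d - 1) * ε := by
  by_cases hd : d = 0
  · subst hd; simp at hε2; linarith
  have hd' : (0 : ℝ) < 2 * d := by positivity
  rw [lt_div_iff₀ hd'] at hε2
  linarith

lemma step_ge (hε : 0 < ε) (hε2 : ε < 1 / (2 * d)) (ω : Env d) (x : Lat d) (a : Arrow d) :
    ε ≤ step ε ω (x + vec a) x := by
  unfold step
  split_ifs with h1 h2
  · exact (kappa_gt hε hε2).le
  · exact le_rfl
  · exact absurd ⟨a, by simp⟩ h2

lemma step_nonneg (hε : 0 < ε) (hε2 : ε < 1 / (2 * d)) (ω : Env d) (x z : Lat d) :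
    0 ≤ step ε ω x z := by
  unfold step
  have := kappa_gt hε hε2
  split_ifs <;> linarith

lemma step_le (hε : 0 < ε) (hε2 : ε < 1 / (2 * d)) (hd : 0 < d) (ω : Env d) (x z : Lat d) :
    step ε ω x z ≤ 1 := by
  have h1 : (1 : ℝ) ≤ d := by exact_mod_cast hd
  have h2 : ε ≤ 1 := by
    refine hε2.le.trans ?_
    rw [div_le_one (by positivity)]
    linarith
  unfold step
  split_ifs
  · nlinarith
  · exact h2
  · exact zero_le_one

lemma kern_nonneg (hε : 0 < ε) (hε2 : ε < 1 / (2 * d)) (ω : Env d) (n : ℕ) :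
    ∀ x, 0 ≤ kern ε ω n x := by
  induction n with
  | zero => intro x; rw [kern]; split_ifs <;> norm_num
  | succ n ih =>
    intro x
    rw [kern]
    exact Finset.sum_nonneg fun a _ => mul_nonneg (ih _) (step_nonneg hε hε2 ω _ _)

lemma kern_le (hε : 0 < ε) (hε2 : ε < 1 / (2 * d)) (hd : 0 < d) (ω : Env d) (n : ℕ) :
    ∀ x, kern ε ω n x ≤ (2 * d : ℝ) ^ n := by
  induction n with
  | zero => intro x; rw [kern, pow_zero]; split_ifs <;> norm_num
  | succ n ih =>
    intro x
    rw [kern]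
    calc ∑ a : Arrow d, kern ε ω n (x + vec a) * step ε ω (x + vec a) x
        ≤ ∑ _a : Arrow d, (2 * d : ℝ) ^ n * 1 :=
          Finset.sum_le_sum fun a _ => mul_le_mul (ih _) (step_le hε hε2 hd ω _ _)
            (step_nonneg hε hε2 ω _ _) (by positivity)
      _ = (2 * d : ℝ) ^ (n + 1) := by
          rw [Finset.sum_const, Finset.card_univ, nsmul_eq_mul]
          simp only [Fintype.card_prod, Fintype.card_fin, Fintype.card_bool]
          push_cast
          ring

lemma kern_ge_step (hε : 0 < ε) (hε2 : ε < 1 / (2 * d)) (ω : Env d) (n : ℕ) (x : Lat d)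
    (a : Arrow d) : ε * kern ε ω n (x + vec a) ≤ kern ε ω (n + 1) x := by
  rw [kern]
  calc ε * kern ε ω n (x + vec a) = kern ε ω n (x + vec a) * ε := mul_comm _ _
    _ ≤ kern ε ω n (x + vec a) * step ε ω (x + vec a) x :=
        mul_le_mul_of_nonneg_left (step_ge hε hε2 ω x a) (kern_nonneg hε hε2 ω n _)
    _ ≤ _ := Finset.single_le_sum (f := fun a => kern ε ω n (x + vec a) * step ε ω (x + vec a) x)
        (fun a _ => mul_nonneg (kern_nonneg hε hε2 ω n _) (step_nonneg hε hε2 ω _ _))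
        (Finset.mem_univ a)

lemma kern_even (hε : 0 < ε) (hε2 : ε < 1 / (2 * d)) (hd : 0 < d) (ω : Env d) (N : ℕ) :
    ε ^ (2 * N) ≤ kern ε ω (2 * N) 0 := by
  induction N with
  | zero => rw [kern]; simp
  | succ N ih =>
    have a : Arrow d := (⟨0, hd⟩, true)
    have h1 := kern_ge_step hε hε2 ω (2 * N) (vec a) (flip a)
    rw [vec_flip, add_neg_cancel] at h1
    have h2 := kern_ge_step hε hε2 ω (2 * N + 1) 0 a
    rw [zero_add] at h2
    calc ε ^ (2 * (N + 1)) = ε * (ε * ε ^ (2 * N)) := by ring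
      _ ≤ ε * (ε * kern ε ω (2 * N) 0) := by gcongr
      _ ≤ ε * kern ε ω (2 * N + 1) (vec a) := by gcongr
      _ ≤ kern ε ω (2 * (N + 1)) 0 := h2

lemma kern_odd (hε : 0 < ε) (hε2 : ε < 1 / (2 * d)) (hd : 0 < d) (ω : Env d) (N : ℕ)
    (a : Arrow d) : ε ^ (2 * N + 1) ≤ kern ε ω (2 * N + 1) (vec a) := by
  have h1 := kern_ge_step hε hε2 ω (2 * N) (vec a) (flip a)
  rw [vec_flip, add_neg_cancel] at h1
  calc ε ^ (2 * N + 1) = ε * ε ^ (2 * N) := by ring
    _ ≤ ε * kern ε ω (2 * N) 0 := by gcongr; exact kern_even hε hε2 hd ω N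
    _ ≤ _ := h1

lemma meas_step (x z : Lat d) : Measurable fun ω : Env d => step ε ω x z := by
  unfold step
  classical
  have h1 : Measurable fun ω : Env d => ω x := measurable_pi_apply x
  have h2 : Measurable fun b : Arrow d => (if x - z = vec b then 1 - (2 * d - 1) * ε
      else if ∃ a : Arrow d, x - z = vec a then ε else 0) := measurable_of_finite _
  exact h2.comp h1

lemma meas_kern (n : ℕ) : ∀ x : Lat d, Measurable fun ω : Env d => kern ε ω n x := by
  induction n with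
  | zero => intro x; exact measurable_const
  | succ n ih =>
    intro x
    change Measurable fun ω : Env d => ∑ a : Arrow d, kern ε ω n (x + vec a) * step ε ω (x + vec a) x
    exact Finset.measurable_fun_sum _ fun a _ => (ih _).mul (meas_step _ _)

instance [NeZero d] : IsProbabilityMeasure (envLaw d) := by unfold envLaw; infer_instance

lemma avg_pos [NeZero d] (hε : 0 < ε) (hε2 : ε < 1 / (2 * d)) (n : ℕ) (x : Lat d)
    (h : ∀ ω : Env d, ε ^ n ≤ kern ε ω n x) : 0 < avgKern d ε n x := by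
  have hd : 0 < d := Nat.pos_of_ne_zero (NeZero.ne d)
  unfold avgKern
  have hint : Integrable (fun ω : Env d => kern ε ω n x) (envLaw d) := by
    refine Integrable.mono' (integrable_const ((2 * d : ℝ) ^ n)) (meas_kern n x).aestronglyMeasurable
      (Filter.Eventually.of_forall fun ω => ?_)
    rw [Real.norm_eq_abs, abs_of_nonneg (kern_nonneg hε hε2 ω n x)]
    exact kern_le hε hε2 hd ω n x
  calc 0 < ε ^ n := pow_pos hε n
    _ = ∫ _ω : Env d, ε ^ n ∂(envLaw d) := by simp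
    _ ≤ _ := integral_mono (integrable_const _) hint h

end ker

/-- probability of prescribing the arrows at the neighbours of the origin -/
lemma prescribe [NeZero d] (f : Arrow d → Arrow d) :
    envLaw d {ω | ∀ a : Arrow d, ω (vec a) = f a} = ((2 * d : ℕ) : ℝ≥0∞)⁻¹ ^ (2 * d) := by
  classical
  have hset : {ω : Env d | ∀ a : Arrow d, ω (vec a) = f a}
      = Set.pi (Finset.univ.image (vec (d := d)) : Finset (Lat d))
        (fun x => {b : Arrow d | ∀ a, vec a = x → b = f a}) := by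
    ext ω
    simp only [Set.mem_ofPred_eq, Set.mem_pi, Finset.coe_image, Finset.coe_univ, Set.image_univ,
      Set.mem_range, forall_exists_index, forall_apply_eq_imp_iff]
    constructor
    · intro h a b hab
      rw [← hab]; exact h b
    · intro h a
      exact h a a rfl
  rw [hset, envLaw, Measure.infinitePi_pi _ (fun i _ => MeasurableSet.of_discrete),
    Finset.prod_image (fun a _ b _ h => vec_injective h)]
  have h1 : ∀ a : Arrow d, (PMF.uniformOfFintype (Arrow d)).toMeasure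
      {b : Arrow d | ∀ a', vec a' = vec a → b = f a'} = ((2 * d : ℕ) : ℝ≥0∞)⁻¹ := by
    intro a
    have : {b : Arrow d | ∀ a', vec a' = vec a → b = f a'} = {f a} := by
      ext b
      simp only [Set.mem_ofPred_eq, Set.mem_singleton_iff]
      constructor
      · intro h; exact h a rfl
      · rintro rfl a' h; rw [vec_injective h]
    rw [this, PMF.toMeasure_apply_singleton _ _ MeasurableSet.of_discrete,
      PMF.uniformOfFintype_apply]
    congr 2
    simp only [Fintype.card_prod, Fintype.card_fin, Fintype.card_bool]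
    ring
  rw [Finset.prod_congr rfl fun a _ => h1 a, Finset.prod_const, Finset.card_univ]
  congr 1
  simp only [Fintype.card_prod, Fintype.card_fin, Fintype.card_bool]
  ring

/-- The quenched kernel is not asymptotic, in probability, to ANY deterministic kernel. -/
theorem no_reference (d : ℕ) [NeZero d] (ε : ℝ) (hε : 0 < ε) (hε2 : ε < 1 / (2 * d)) :
    ∃ δ : ℝ, 0 < δ ∧ ∃ η : ℝ≥0∞, 0 < η ∧ ∀ (c : ℕ → Lat d → ℝ) (N : ℕ),
      ∃ m : ℕ, (m = 2 * N + 1 ∨ m = 2 * N + 2) ∧ ∃ x : Lat d,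
        Real.sqrt (∑ i, (x i : ℝ) ^ 2) ≤ 1 ∧ 0 < avgKern d ε m x ∧
        η ≤ envLaw d {ω | δ < |kern ε ω m x / c m x - 1|} := by
  have hd : 0 < d := Nat.pos_of_ne_zero (NeZero.ne d)
  set κ : ℝ := 1 - (2 * d - 1) * ε with hκ
  have hκε : ε < κ := kappa_gt hε hε2
  obtain ⟨δ, hδ0, hδ1, hδ⟩ : ∃ δ : ℝ, 0 < δ ∧ δ < 1 ∧ ε * (1 + δ) ^ 2 < κ * (1 - δ) ^ 2 := by
    have h1 : Tendsto (fun δ : ℝ => κ * (1 - δ) ^ 2 - ε * (1 + δ) ^ 2) (𝓝[>] 0) (𝓝 (κ - ε)) := by
      have : ContinuousAt (fun δ : ℝ => κ * (1 - δ) ^ 2 - ε * (1 + δ) ^ 2) 0 := by fun_prop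
      have h2 := this.tendsto
      simp only [sub_zero, one_pow, mul_one, add_zero] at h2
      exact h2.mono_left nhdsWithin_le_nhds
    have h2 := h1.eventually (lt_mem_nhds (show 0 < κ - ε by linarith))
    have h3 : ∀ᶠ δ : ℝ in 𝓝[>] 0, δ ∈ Set.Ioo (0 : ℝ) 1 := Ioo_mem_nhdsGT one_pos
    obtain ⟨δ, h4, h5⟩ := (h2.and h3).exists
    exact ⟨δ, h5.1, h5.2, by linarith⟩
  set p0 : ℝ≥0∞ := ((2 * d : ℕ) : ℝ≥0∞)⁻¹ ^ (2 * d) with hp0
  have hp0pos : p0 ≠ 0 := pow_ne_zero _ (ENNReal.inv_ne_zero.2 (ENNReal.natCast_ne_top _))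
  have hp0top : p0 ≠ ∞ := by
    apply ENNReal.pow_ne_top
    exact ENNReal.inv_ne_top.2 (by exact_mod_cast (by omega : 2 * d ≠ 0))
  set K : ℝ≥0∞ := ((2 * d + 2 : ℕ) : ℝ≥0∞) with hK
  refine ⟨δ, hδ0, p0 / K, ENNReal.div_pos hp0pos (ENNReal.natCast_ne_top _), ?_⟩
  intro c N
  by_contra hcon
  push Not at hcon
  -- the bad events
  have hb1 : envLaw d {ω | δ < |kern ε ω (2 * N + 2) 0 / c (2 * N + 2) 0 - 1|} < p0 / K := by
    apply hcon _ (Or.inr rfl) 0
    · simp
    · exact avg_pos hε hε2 _ _ fun ω => kern_even hε hε2 hd ω (N + 1)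
  have hb2 : ∀ a : Arrow d,
      envLaw d {ω | δ < |kern ε ω (2 * N + 1) (vec a) / c (2 * N + 1) (vec a) - 1|} < p0 / K := by
    intro a
    apply hcon _ (Or.inl rfl) (vec a)
    · exact (sqrt_vec a).le
    · exact avg_pos hε hε2 _ _ fun ω => kern_odd hε hε2 hd ω N a
  set B : Set (Env d) := {ω | δ < |kern ε ω (2 * N + 2) 0 / c (2 * N + 2) 0 - 1|} ∪
    ⋃ a : Arrow d, {ω | δ < |kern ε ω (2 * N + 1) (vec a) / c (2 * N + 1) (vec a) - 1|} with hB
  have hBlt : envLaw d B < p0 := by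
    calc envLaw d B ≤ envLaw d {ω | δ < |kern ε ω (2 * N + 2) 0 / c (2 * N + 2) 0 - 1|}
          + ∑ a : Arrow d, envLaw d
            {ω | δ < |kern ε ω (2 * N + 1) (vec a) / c (2 * N + 1) (vec a) - 1|} := by
          refine (measure_union_le _ _).trans ?_
          gcongr
          exact measure_iUnion_fintype_le _ _
      _ ≤ p0 / K + ∑ _a : Arrow d, p0 / K :=
          add_le_add hb1.le (Finset.sum_le_sum fun a _ => (hb2 a).le)
      _ = ((2 * d + 1 : ℕ) : ℝ≥0∞) * (p0 / K) := by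
          rw [Finset.sum_const, Finset.card_univ, nsmul_eq_mul]
          simp only [Fintype.card_prod, Fintype.card_fin, Fintype.card_bool]
          push_cast
          ring
      _ < K * (p0 / K) := by
          apply ENNReal.mul_lt_mul_left
          · exact (ENNReal.div_pos hp0pos (ENNReal.natCast_ne_top _)).ne'
          · exact ENNReal.div_ne_top hp0top (by rw [hK]; exact_mod_cast (by omega : 2 * d + 2 ≠ 0))
          · rw [hK]; exact_mod_cast (by omega : 2 * d + 1 < 2 * d + 2)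
      _ = p0 := ENNReal.mul_div_cancel (by rw [hK]; exact_mod_cast (by omega : 2 * d + 2 ≠ 0))
          (ENNReal.natCast_ne_top _)
  have hex : ∀ f : Arrow d → Arrow d, ∃ ω : Env d, (∀ a : Arrow d, ω (vec a) = f a) ∧ ω ∉ B := by
    intro f
    by_contra hno
    push Not at hno
    have : {ω : Env d | ∀ a : Arrow d, ω (vec a) = f a} ⊆ B := fun ω hω => hno ω hω
    have h2 := measure_mono (μ := envLaw d) this
    rw [prescribe f] at h2
    exact absurd h2 (not_le.2 hBlt)
  obtain ⟨ω, hω, hωB⟩ := hex id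
  obtain ⟨ω', hω', hωB'⟩ := hex flip
  have good : ∀ ω : Env d, ω ∉ B → (|kern ε ω (2 * N + 2) 0 / c (2 * N + 2) 0 - 1| ≤ δ ∧
      ∀ a : Arrow d, |kern ε ω (2 * N + 1) (vec a) / c (2 * N + 1) (vec a) - 1| ≤ δ) := by
    intro ω h
    rw [hB] at h
    simp only [Set.mem_union, Set.mem_iUnion, Set.mem_ofPred_eq, not_or, not_exists, not_lt] at h
    exact h
  obtain ⟨g1, g2⟩ := good ω hωB
  obtain ⟨g1', g2'⟩ := good ω' hωB'
  -- the reference kernel is positive at the relevant sites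
  have hpos : ∀ (k r : ℝ), 0 ≤ k → |k / r - 1| ≤ δ → 0 < r := by
    intro k r hk h
    by_contra hr
    push Not at hr
    have h1 : k / r ≤ 0 := div_nonpos_of_nonneg_of_nonpos hk hr
    have h2 := (abs_le.1 h).1
    linarith
  have hlow : ∀ (k r : ℝ), 0 ≤ k → |k / r - 1| ≤ δ → (1 - δ) * r ≤ k ∧ k ≤ (1 + δ) * r := by
    intro k r hk h
    have hr := hpos k r hk h
    have h2 := abs_le.1 h
    constructor
    · have h3 : 1 - δ ≤ k / r := by linarith
      rwa [le_div_iff₀ hr] at h3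
    · have h3 : k / r ≤ 1 + δ := by linarith
      rwa [div_le_iff₀ hr] at h3
  have k1 := hlow _ _ (kern_nonneg hε hε2 ω _ _) g1
  have k1' := hlow _ _ (kern_nonneg hε hε2 ω' _ _) g1'
  have k2 := fun a => hlow _ _ (kern_nonneg hε hε2 ω _ _) (g2 a)
  have k2' := fun a => hlow _ _ (kern_nonneg hε hε2 ω' _ _) (g2' a)
  have e1 : kern ε ω (2 * N + 2) 0 = κ * ∑ a : Arrow d, kern ε ω (2 * N + 1) (vec a) := by
    change ∑ a : Arrow d, kern ε ω (2 * N + 1) (0 + vec a) * step ε ω (0 + vec a) 0 = _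
    rw [Finset.mul_sum]
    apply Finset.sum_congr rfl
    intro a _
    rw [zero_add]
    have : step ε ω (vec a) 0 = κ := by
      unfold step
      rw [if_pos]
      rw [sub_zero, hω a]; rfl
    rw [this, mul_comm]
  have e1' : kern ε ω' (2 * N + 2) 0 = ε * ∑ a : Arrow d, kern ε ω' (2 * N + 1) (vec a) := by
    change ∑ a : Arrow d, kern ε ω' (2 * N + 1) (0 + vec a) * step ε ω' (0 + vec a) 0 = _
    rw [Finset.mul_sum]
    apply Finset.sum_congr rfl
    intro a _
    rw [zero_add]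
    have : step ε ω' (vec a) 0 = ε := by
      unfold step
      rw [if_neg, if_pos]
      · exact ⟨a, by simp⟩
      · rw [sub_zero, hω' a]
        intro h
        exact flip_ne a (vec_injective h).symm
    rw [this, mul_comm]
  set M : ℝ := ∑ a : Arrow d, c (2 * N + 1) (vec a) with hM
  have hMpos : 0 < M := by
    apply Finset.sum_pos
    · intro a _
      exact hpos _ _ (kern_nonneg hε hε2 ω _ _) (g2 a)
    · exact ⟨(⟨0, hd⟩, true), Finset.mem_univ _⟩
  have s1 : (1 - δ) * M ≤ ∑ a : Arrow d, kern ε ω (2 * N + 1) (vec a) := by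
    rw [hM, Finset.mul_sum]
    exact Finset.sum_le_sum fun a _ => (k2 a).1
  have s1' : ∑ a : Arrow d, kern ε ω' (2 * N + 1) (vec a) ≤ (1 + δ) * M := by
    rw [hM, Finset.mul_sum]
    exact Finset.sum_le_sum fun a _ => (k2' a).2
  have hκ0 : 0 < κ := hε.trans hκε
  have u1 : κ * ((1 - δ) * M) ≤ (1 + δ) * c (2 * N + 2) 0 := by
    calc κ * ((1 - δ) * M) ≤ κ * ∑ a : Arrow d, kern ε ω (2 * N + 1) (vec a) := by gcongr
      _ = kern ε ω (2 * N + 2) 0 := e1.symm
      _ ≤ _ := k1.2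
  have u2 : (1 - δ) * c (2 * N + 2) 0 ≤ ε * ((1 + δ) * M) := by
    calc (1 - δ) * c (2 * N + 2) 0 ≤ kern ε ω' (2 * N + 2) 0 := k1'.1
      _ = ε * ∑ a : Arrow d, kern ε ω' (2 * N + 1) (vec a) := e1'
      _ ≤ _ := by gcongr
  have u3 : κ * (1 - δ) ^ 2 * M ≤ ε * (1 + δ) ^ 2 * M := by
    have h1 : (1 - δ) * (κ * ((1 - δ) * M)) ≤ (1 - δ) * ((1 + δ) * c (2 * N + 2) 0) :=
      mul_le_mul_of_nonneg_left u1 (by linarith)
    have h2 : (1 + δ) * ((1 - δ) * c (2 * N + 2) 0) ≤ (1 + δ) * (ε * ((1 + δ) * M)) :=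
      mul_le_mul_of_nonneg_left u2 (by linarith)
    nlinarith
  have u4 := le_of_mul_le_mul_right u3 hMpos
  linarith

theorem not_kernelRatio (d : ℕ) [NeZero d] (ε : ℝ) (hε : 0 < ε) (hε2 : ε < 1 / (2 * d)) :
    ¬ KernelRatio d ε := by
  obtain ⟨δ, hδ, η, hη, h⟩ := no_reference d ε hε hε2
  intro hK
  have h1 := hK 1 one_pos δ hδ
  have h2 := h1.eventually (gt_mem_nhds hη)
  obtain ⟨n0, hn0⟩ := eventually_atTop.1 h2
  obtain ⟨m, hm, x, hx, hxp, hxe⟩ := h (avgKern d ε) n0
  have hmn : n0 ≤ m := by omega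
  have hm1 : 1 ≤ m := by omega
  have h3 := hn0 m hmn
  refine absurd h3 (not_lt.2 ?_)
  refine le_trans hxe ?_
  refine le_trans ?_ (le_iSup _ x)
  refine le_iSup_of_le ⟨?_, hxp⟩ le_rfl
  refine hx.trans ?_
  rw [one_mul]
  have : (1 : ℝ) ≤ m := by exact_mod_cast hm1
  calc (1 : ℝ) = Real.sqrt 1 := Real.sqrt_one.symm
    _ ≤ Real.sqrt m := Real.sqrt_le_sqrt this

/-- **MP_31ab2b_pr, Q1 (negative answer).**  For every dimension and every
`ε ∈ (0, 1/(2d))` the model does not homogenize: condition (ii) fails, and it fails for every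
deterministic reference kernel in place of the averaged one. -/
theorem result :
    (∀ (d : ℕ) [NeZero d] (ε : ℝ), 0 < ε → ε < 1 / (2 * d) → ¬ Homogenizes d ε) ∧
    (∀ (d : ℕ) [NeZero d] (ε : ℝ), 0 < ε → ε < 1 / (2 * d) →
      ∃ δ : ℝ, 0 < δ ∧ ∃ η : ℝ≥0∞, 0 < η ∧ ∀ (c : ℕ → Lat d → ℝ) (N : ℕ),
        ∃ m : ℕ, (m = 2 * N + 1 ∨ m = 2 * N + 2) ∧ ∃ x : Lat d,
          Real.sqrt (∑ i, (x i : ℝ) ^ 2) ≤ 1 ∧ 0 < avgKern d ε m x ∧
          η ≤ envLaw d {ω | δ < |kern ε ω m x / c m x - 1|}) := by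
  refine ⟨fun d _ ε h1 h2 h3 => not_kernelRatio d ε h1 h2 h3.2, fun d _ ε h1 h2 => ?_⟩
  exact no_reference d ε h1 h2

end Pool.Agent.Results.MP_31ab2b_pr.NoHomogenization
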